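import Pool.Agent.L0h94.RZ.Defs

/-!
# Project RZ, module GRP: cosets modulo doubles (helper71)
-/

set_option autoImplicit false

namespace Pool.Agent.L0h71.RZ

open Finset Module Pool.Agent.L0h94.RZ

/-- in a finite abelian group there are as many classes modulo doubles as elements of order two -/
lemma fin_part (D : Type) [AddCommGroup D] [Finite D] (T : Finset D) (hT : T.card = 4)
    (hT2 : ∀ t ∈ T, t + t = 0) :
    ∃ c : Fin 4 → D, ∀ i j, (∃ q : D, c i = c j + (q + q)) → i = j := by
  classical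
  let φ : D →+ D :=
    { toFun := fun d => d + d
      map_zero' := add_zero 0
      map_add' := fun a b => by abel }
  have h1 : Nat.card D = Nat.card (D ⧸ φ.range) * Nat.card φ.range :=
    AddSubgroup.card_eq_card_quotient_mul_card_addSubgroup φ.range
  have h2 : Nat.card D = Nat.card (D ⧸ φ.ker) * Nat.card φ.ker :=
    AddSubgroup.card_eq_card_quotient_mul_card_addSubgroup φ.ker
  have h3 : Nat.card (D ⧸ φ.ker) = Nat.card φ.range :=
    Nat.card_congr (QuotientAddGroup.quotientKerEquivRange φ).toEquiv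
  have h4 : Nat.card (D ⧸ φ.range) = Nat.card φ.ker := by
    have h5 : 0 < Nat.card φ.range := Nat.card_pos
    rw [h3, mul_comm] at h2
    rw [h1] at h2
    exact Nat.eq_of_mul_eq_mul_right h5 h2
  have h5 : 4 ≤ Nat.card φ.ker := by
    have h6 : Nat.card T ≤ Nat.card φ.ker :=
      Nat.card_le_card_of_injective (fun t : T => (⟨t.1, hT2 t.1 t.2⟩ : φ.ker)) (by
        intro a b hab
        exact Subtype.ext (congrArg (fun x : φ.ker => (x : D)) hab))
    rw [Nat.card_eq_fintype_card, Fintype.card_coe, hT] at h6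
    exact h6
  have := Fintype.ofFinite (D ⧸ φ.range)
  rw [← h4, Nat.card_eq_fintype_card] at h5
  obtain ⟨f⟩ : Nonempty (Fin 4 ↪ (D ⧸ φ.range)) :=
    Function.Embedding.nonempty_of_card_le (by simpa using h5)
  choose c hc using fun i => QuotientAddGroup.mk_surjective (f i)
  refine ⟨c, fun i j => ?_⟩
  rintro ⟨q, hq⟩
  apply f.injective
  rw [← hc i, ← hc j, QuotientAddGroup.eq]
  exact ⟨-q, by show -q + -q = -c i + c j; rw [hq]; abel⟩

/-- **(4)** -/
theorem grp : S_GRP := by
  classical
  intro G _ hfg hrk ⟨T, hT, hT2⟩ F hF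
  obtain ⟨n, ι, _, p, hp, e, ⟨f⟩⟩ := @AddCommGroup.equiv_free_prod_directSum_zmod G _ hfg
  set D := DirectSum ι (fun i => ZMod (p i ^ e i)) with hD
  have hDf : Finite D := by
    have : ∀ i, NeZero (p i ^ e i) := fun i => ⟨pow_ne_zero _ (hp i).ne_zero⟩
    have : ∀ i, Finite (ZMod (p i ^ e i)) := fun i => inferInstance
    exact Finite.of_equiv _ (DirectSum.addEquivProd (fun i => ZMod (p i ^ e i))).symm.toEquiv
  have hn : n ≠ 0 := by
    rintro rfl
    apply hrk
    have : Finite G := Finite.of_equiv _ f.symm.toEquiv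
    rw [Module.finrank_eq_zero_iff_isTorsion]
    intro x
    refine ⟨⟨(Nat.card G : ℤ), mem_nonZeroDivisors_of_ne_zero (by
      exact_mod_cast Nat.card_pos.ne')⟩, ?_⟩
    show (Nat.card G : ℤ) • x = 0
    rw [natCast_zsmul]
    exact card_nsmul_eq_zero'
  -- the elements of order two
  have hfst : ∀ t ∈ T, (f t).1 = 0 := by
    intro t ht
    have h1 : f t + f t = 0 := by rw [← map_add, hT2 t ht, map_zero]
    have h2 : (f t).1 + (f t).1 = 0 := congrArg Prod.fst h1
    ext i
    have h3 : (f t).1 i + (f t).1 i = 0 := by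
      have := DFunLike.congr_fun h2 i
      simpa using this
    show (f t).1 i = 0
    omega
  obtain ⟨c, hc⟩ := fin_part D (T.image fun t => (f t).2) (by
    rw [Finset.card_image_of_injOn, hT]
    intro a ha b hb hab
    apply f.injective
    exact Prod.ext ((hfst a ha).trans (hfst b hb).symm) hab) (by
    intro d hd
    rw [Finset.mem_image] at hd
    obtain ⟨t, ht, rfl⟩ := hd
    have h1 : f t + f t = 0 := by rw [← map_add, hT2 t ht, map_zero]
    exact congrArg Prod.snd h1)
  let i0 : Fin n := ⟨0, Nat.pos_of_ne_zero hn⟩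
  have hN : ∀ (a : Fin 2) (d : D), ∃ N : ℕ,
      f.symm (Finsupp.single i0 ((a : ℕ) + 2 * (N : ℤ)), d) ∉ F := by
    intro a d
    by_contra hcon
    push Not at hcon
    have hinj : Function.Injective (fun N : ℕ =>
        f.symm (Finsupp.single i0 (((a : ℕ) : ℤ) + 2 * (N : ℤ)), d)) := by
      intro N N' hNN
      have h1 := congrArg Prod.fst (f.symm.injective hNN)
      have h2 := Finsupp.single_injective i0 h1
      omega
    exact (Set.infinite_range_of_injective hinj) (hF.subset (by
      rintro _ ⟨N, rfl⟩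
      exact hcon N))
  choose N hN using hN
  let g' : Fin 2 × Fin 4 → G := fun x =>
    f.symm (Finsupp.single i0 ((x.1 : ℕ) + 2 * (N x.1 (c x.2) : ℤ)), c x.2)
  let E : Fin 8 ≃ Fin 2 × Fin 4 := (finProdFinEquiv (m := 2) (n := 4)).symm
  refine ⟨fun i => g' (E i), fun i => hN _ _, fun i j => ?_⟩
  rintro ⟨q, hq⟩
  apply E.injective
  have h1 := congrArg f hq
  rw [map_add, map_add] at h1
  simp only [g', AddEquiv.apply_symm_apply] at h1
  have h2 := congrArg Prod.fst h1
  have h3 := congrArg Prod.snd h1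
  have h4 : (E i).2 = (E j).2 := hc _ _ ⟨(f q).2, h3⟩
  refine Prod.ext ?_ h4
  have h5 := DFunLike.congr_fun h2 i0
  simp only [Prod.fst_add, Finsupp.add_apply, Finsupp.single_eq_same] at h5
  have h6 := (E i).1.2
  have h7 := (E j).1.2
  apply Fin.ext
  omega

end Pool.Agent.L0h71.RZ
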