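import Pool.Agent.L0h94.RZ.Defs

/-!
# Project RZ, module SYM: parity of the corank of a symmetric matrix over `F₂` (helper71)
-/

set_option autoImplicit false

namespace Pool.Agent.L0h71.RZ

open Finset Module Pool.Agent.L0h94.RZ

namespace SymP

lemma mem_KerE {S : Finset ℕ} {e : ℕ → ℕ → ZMod 2} {v : ℕ → ZMod 2} :
    v ∈ KerE S e ↔ (∀ p, p ∉ S → v p = 0) ∧ ∀ p ∈ S, ∑ q ∈ S, e p q * v q = 0 := Iff.rfl

lemma finite_KerE (S : Finset ℕ) (e : ℕ → ℕ → ZMod 2) : Finite (KerE S e) := by
  apply Finite.of_injective (fun v : KerE S e => fun p : S => v.1 p)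
  intro v v' h
  apply Subtype.ext
  funext p
  by_cases hp : p ∈ S
  · exact congrFun h ⟨p, hp⟩
  · rw [v.2.1 p hp, v'.2.1 p hp]

lemma base (S : Finset ℕ) (e : ℕ → ℕ → ZMod 2) (h : ∀ p ∈ S, ∀ q ∈ S, e p q = 0) :
    finrank (ZMod 2) (KerE S e) = S.card := by
  classical
  let f : KerE S e →ₗ[ZMod 2] (S → ZMod 2) :=
    { toFun := fun v p => v.1 p
      map_add' := fun _ _ => rfl
      map_smul' := fun _ _ => rfl }
  have hf : Function.Bijective f := by
    constructor
    · intro v v' hv
      apply Subtype.ext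
      funext p
      by_cases hp : p ∈ S
      · exact congrFun hv ⟨p, hp⟩
      · rw [v.2.1 p hp, v'.2.1 p hp]
    · intro w
      refine ⟨⟨fun p => if hp : p ∈ S then w ⟨p, hp⟩ else 0, fun p hp => dif_neg hp,
        fun p hp => ?_⟩, ?_⟩
      · exact Finset.sum_eq_zero fun q hq => by rw [h p hp q hq, zero_mul]
      · funext p
        exact dif_pos p.2
  rw [(LinearEquiv.ofBijective f hf).finrank_eq, finrank_fintype_fun_eq_card, Fintype.card_coe]

section step

variable {S : Finset ℕ} {e : ℕ → ℕ → ZMod 2} {i j : ℕ}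

/-- the Schur complement -/
def sc (e : ℕ → ℕ → ZMod 2) (i j p q : ℕ) : ZMod 2 := e p q + e p i * e j q + e p j * e i q

lemma split (hi : i ∈ S) (hj : j ∈ S) (hij : i ≠ j) (f : ℕ → ZMod 2) :
    ∑ q ∈ S, f q = f i + f j + ∑ q ∈ (S.erase i).erase j, f q := by
  rw [← Finset.add_sum_erase S f hi,
    ← Finset.add_sum_erase (S.erase i) f (Finset.mem_erase.mpr ⟨hij.symm, hj⟩), add_assoc]

lemma sc_sum (f : ℕ → ZMod 2) (T : Finset ℕ) (p : ℕ) :
    ∑ q ∈ T, sc e i j p q * f q = ∑ q ∈ T, e p q * f q + e p i * ∑ q ∈ T, e j q * f q +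
      e p j * ∑ q ∈ T, e i q * f q := by
  unfold sc
  rw [Finset.mul_sum, Finset.mul_sum, ← Finset.sum_add_distrib, ← Finset.sum_add_distrib]
  refine Finset.sum_congr rfl fun q _ => ?_
  ring

/-- the restriction -/
def fw (i j : ℕ) (v : ℕ → ZMod 2) (q : ℕ) : ZMod 2 := if q = i ∨ q = j then 0 else v q

/-- the extension -/
def bw (S : Finset ℕ) (e : ℕ → ℕ → ZMod 2) (i j : ℕ) (w : ℕ → ZMod 2) (q : ℕ) : ZMod 2 :=
  if q = i then ∑ r ∈ (S.erase i).erase j, e j r * w r else
    if q = j then ∑ r ∈ (S.erase i).erase j, e i r * w r else w q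

lemma sum_fw (T : Finset ℕ) (hT : ∀ q ∈ T, q ≠ i ∧ q ≠ j) (g v : ℕ → ZMod 2) :
    ∑ q ∈ T, g q * fw i j v q = ∑ q ∈ T, g q * v q := by
  refine Finset.sum_congr rfl fun q hq => ?_
  unfold fw
  rw [if_neg]
  rintro (h | h)
  · exact (hT q hq).1 h
  · exact (hT q hq).2 h

lemma sum_bw (T : Finset ℕ) (hT : ∀ q ∈ T, q ≠ i ∧ q ≠ j) (g w : ℕ → ZMod 2) :
    ∑ q ∈ T, g q * bw S e i j w q = ∑ q ∈ T, g q * w q := by
  refine Finset.sum_congr rfl fun q hq => ?_
  unfold bw
  rw [if_neg (hT q hq).1, if_neg (hT q hq).2]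

lemma hS' (q : ℕ) (hq : q ∈ (S.erase i).erase j) : q ≠ i ∧ q ≠ j ∧ q ∈ S := by
  rw [Finset.mem_erase, Finset.mem_erase] at hq
  exact ⟨hq.2.1, hq.1, hq.2.2⟩

/-- the coordinates `i`, `j` -/
lemma coords (hi : i ∈ S) (hj : j ∈ S) (hij : i ≠ j) (hii : e i i = 0) (hjj : e j j = 0)
    (h1 : e i j = 1) (h2 : e j i = 1) {v : ℕ → ZMod 2} (hv : v ∈ KerE S e) :
    v i = ∑ q ∈ (S.erase i).erase j, e j q * v q ∧
      v j = ∑ q ∈ (S.erase i).erase j, e i q * v q := by
  obtain ⟨_, hv2⟩ := mem_KerE.mp hv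
  have e1 := hv2 i hi
  have e2 := hv2 j hj
  rw [split hi hj hij] at e1 e2
  rw [hii, h1, zero_mul, zero_add, one_mul] at e1
  rw [hjj, h2, zero_mul, add_zero, one_mul] at e2
  exact ⟨CharTwo.add_eq_zero.mp e2, CharTwo.add_eq_zero.mp e1⟩

lemma fw_mem (hi : i ∈ S) (hj : j ∈ S) (hij : i ≠ j) (hii : e i i = 0) (hjj : e j j = 0)
    (h1 : e i j = 1) (h2 : e j i = 1) {v : ℕ → ZMod 2} (hv : v ∈ KerE S e) :
    fw i j v ∈ KerE ((S.erase i).erase j) (sc e i j) := by
  obtain ⟨hvi, hvj⟩ := coords hi hj hij hii hjj h1 h2 hv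
  obtain ⟨hv1, hv2⟩ := mem_KerE.mp hv
  refine mem_KerE.mpr ⟨fun p hp => ?_, fun p hp => ?_⟩
  · unfold fw
    split_ifs with h
    · rfl
    · push Not at h
      apply hv1
      intro hpS
      exact hp (Finset.mem_erase.mpr ⟨h.2, Finset.mem_erase.mpr ⟨h.1, hpS⟩⟩)
  · rw [sum_fw _ (fun q hq => ⟨(hS' q hq).1, (hS' q hq).2.1⟩), sc_sum, ← hvi, ← hvj]
    have e1 := hv2 p (hS' p hp).2.2
    rw [split hi hj hij] at e1
    rw [← e1]
    ring

lemma bw_mem (hi : i ∈ S) (hj : j ∈ S) (hij : i ≠ j) (hii : e i i = 0) (hjj : e j j = 0)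
    (h1 : e i j = 1) (h2 : e j i = 1) {w : ℕ → ZMod 2}
    (hw : w ∈ KerE ((S.erase i).erase j) (sc e i j)) : bw S e i j w ∈ KerE S e := by
  obtain ⟨hw1, hw2⟩ := mem_KerE.mp hw
  have bi : bw S e i j w i = ∑ r ∈ (S.erase i).erase j, e j r * w r := if_pos rfl
  have bj : bw S e i j w j = ∑ r ∈ (S.erase i).erase j, e i r * w r := by
    unfold bw
    rw [if_neg hij.symm, if_pos rfl]
  refine mem_KerE.mpr ⟨fun p hp => ?_, fun p hp => ?_⟩
  · have hpi : p ≠ i := fun h => hp (h ▸ hi)
    have hpj : p ≠ j := fun h => hp (h ▸ hj)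
    unfold bw
    rw [if_neg hpi, if_neg hpj]
    apply hw1
    intro h
    exact hp (hS' p h).2.2
  · rw [split hi hj hij, sum_bw _ (fun q hq => ⟨(hS' q hq).1, (hS' q hq).2.1⟩), bi, bj]
    by_cases hpi : p = i
    · subst hpi
      rw [hii, h1, zero_mul, zero_add, one_mul]
      exact CharTwo.add_self_eq_zero _
    · by_cases hpj : p = j
      · subst hpj
        rw [hjj, h2, zero_mul, add_zero, one_mul]
        exact CharTwo.add_self_eq_zero _
      · have e1 := hw2 p (Finset.mem_erase.mpr ⟨hpj, Finset.mem_erase.mpr ⟨hpi, hp⟩⟩)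
        rw [sc_sum] at e1
        rw [← e1]
        ring

lemma step_eq (hi : i ∈ S) (hj : j ∈ S) (hij : i ≠ j) (hii : e i i = 0) (hjj : e j j = 0)
    (h1 : e i j = 1) (h2 : e j i = 1) :
    finrank (ZMod 2) (KerE S e) = finrank (ZMod 2) (KerE ((S.erase i).erase j) (sc e i j)) := by
  let f : KerE S e →ₗ[ZMod 2] KerE ((S.erase i).erase j) (sc e i j) :=
    { toFun := fun v => ⟨fw i j v.1, fw_mem hi hj hij hii hjj h1 h2 v.2⟩
      map_add' := fun v v' => by
        apply Subtype.ext
        funext q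
        show fw i j (v.1 + v'.1) q = fw i j v.1 q + fw i j v'.1 q
        unfold fw
        split_ifs
        · rw [add_zero]
        · rfl
      map_smul' := fun c v => by
        apply Subtype.ext
        funext q
        show fw i j (c • v.1) q = c • fw i j v.1 q
        unfold fw
        split_ifs
        · rw [smul_zero]
        · rfl }
  have hf : Function.Bijective f := by
    constructor
    · intro v v' hv
      have h3 : ∀ q, q ≠ i → q ≠ j → v.1 q = v'.1 q := by
        intro q hqi hqj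
        have := congrFun (congrArg Subtype.val hv) q
        have h4 : fw i j v.1 q = fw i j v'.1 q := this
        unfold fw at h4
        rw [if_neg (by tauto), if_neg (by tauto)] at h4
        exact h4
      have h4 : ∀ g : ℕ → ZMod 2, ∑ q ∈ (S.erase i).erase j, g q * v.1 q =
          ∑ q ∈ (S.erase i).erase j, g q * v'.1 q := fun g =>
        Finset.sum_congr rfl fun q hq => by rw [h3 q (hS' q hq).1 (hS' q hq).2.1]
      obtain ⟨a1, a2⟩ := coords hi hj hij hii hjj h1 h2 v.2
      obtain ⟨b1, b2⟩ := coords hi hj hij hii hjj h1 h2 v'.2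
      apply Subtype.ext
      funext q
      by_cases hqi : q = i
      · subst hqi
        rw [a1, b1, h4]
      · by_cases hqj : q = j
        · subst hqj
          rw [a2, b2, h4]
        · exact h3 q hqi hqj
    · intro w
      refine ⟨⟨bw S e i j w.1, bw_mem hi hj hij hii hjj h1 h2 w.2⟩, ?_⟩
      apply Subtype.ext
      funext q
      show fw i j (bw S e i j w.1) q = w.1 q
      unfold fw
      split_ifs with h
      · symm
        apply w.2.1
        intro hq
        rcases h with h | h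
        · exact (hS' q hq).1 h
        · exact (hS' q hq).2.1 h
      · push Not at h
        unfold bw
        rw [if_neg h.1, if_neg h.2]
  exact (LinearEquiv.ofBijective f hf).finrank_eq

end step

/-- the corank of an alternating matrix -/
lemma alt_par : ∀ (n : ℕ) (S : Finset ℕ) (e : ℕ → ℕ → ZMod 2), S.card = n →
    (∀ p ∈ S, ∀ q ∈ S, e p q = e q p) → (∀ p ∈ S, e p p = 0) →
    ((finrank (ZMod 2) (KerE S e) : ℕ) : ZMod 2) = (S.card : ZMod 2) := by
  intro n
  induction n using Nat.strong_induction_on with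
  | _ n ih =>
    intro S e hn hsym hdiag
    by_cases h0 : ∀ p ∈ S, ∀ q ∈ S, e p q = 0
    · rw [base S e h0]
    · push Not at h0
      obtain ⟨i, hi, j, hj, hne⟩ := h0
      have hij : i ≠ j := by
        rintro rfl
        exact hne (hdiag i hi)
      have h1 : e i j = 1 := by
        have : ∀ x : ZMod 2, x ≠ 0 → x = 1 := by decide
        exact this _ hne
      have h2 : e j i = 1 := by rw [hsym j hj i hi, h1]
      rw [step_eq hi hj hij (hdiag i hi) (hdiag j hj) h1 h2]
      have hj' : j ∈ S.erase i := Finset.mem_erase.mpr ⟨hij.symm, hj⟩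
      have hc1 : (S.erase i).card + 1 = S.card := Finset.card_erase_add_one hi
      have hc2 : ((S.erase i).erase j).card + 1 = (S.erase i).card :=
        Finset.card_erase_add_one hj'
      rw [ih ((S.erase i).erase j).card (by omega) ((S.erase i).erase j) (sc e i j) rfl ?_ ?_]
      · have h3 : S.card = ((S.erase i).erase j).card + 2 := by omega
        rw [h3]
        push_cast
        have : (2 : ZMod 2) = 0 := rfl
        rw [this, add_zero]
      · intro p hp q hq
        have hp' := (hS' p hp).2.2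
        have hq' := (hS' q hq).2.2
        unfold sc
        rw [hsym p hp' q hq', hsym p hp' i hi, hsym j hj q hq', hsym p hp' j hj, hsym i hi q hq']
        ring
      · intro p hp
        have hp' := (hS' p hp).2.2
        unfold sc
        rw [hdiag p hp', hsym p hp' i hi, hsym p hp' j hj, zero_add, mul_comm (e i p)]
        exact CharTwo.add_self_eq_zero _

end SymP

open SymP in
/-- **(7)** -/
theorem sym : S_SYM := by
  intro S e hsym hrow
  set h : ℕ → ZMod 2 := fun p => e p p with hh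
  set e' : ℕ → ℕ → ZMod 2 := fun p q => e p q + h p * h q with he'
  have hsq : ∀ x : ZMod 2, x * x = x := by decide
  have hpar := alt_par S.card S e' rfl
    (fun p hp q hq => by rw [he']; simp only []; rw [hsym p hp q hq, mul_comm])
    (fun p hp => by
      rw [he']
      simp only []
      rw [hsq]
      exact CharTwo.add_self_eq_zero _)
  set ε : ZMod 2 := ∑ p ∈ S, h p with hε
  have hrow' : ∀ p ∈ S, ∑ q ∈ S, e' p q = h p + h p * ε := by
    intro p hp
    rw [he']
    simp only []
    rw [Finset.sum_add_distrib, hrow p hp, ← Finset.mul_sum]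
  have hMv : ∀ (v : ℕ → ZMod 2) (p : ℕ), ∑ q ∈ S, e' p q * v q =
      ∑ q ∈ S, e p q * v q + h p * ∑ q ∈ S, h q * v q := by
    intro v p
    rw [Finset.mul_sum, ← Finset.sum_add_distrib]
    refine Finset.sum_congr rfl fun q _ => ?_
    rw [he']
    ring
  -- `h v = 1 M v`
  have hhv : ∀ v : ℕ → ZMod 2, ∑ p ∈ S, h p * v p = ∑ q ∈ S, ∑ p ∈ S, e q p * v p := by
    intro v
    rw [Finset.sum_comm]
    refine Finset.sum_congr rfl fun p hp => ?_
    rw [← Finset.sum_mul]
    congr 1
    rw [hh]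
    simp only []
    rw [← hrow p hp]
    refine Finset.sum_congr rfl fun q hq => ?_
    rw [hsym p hp q hq]
  have hle : KerE S e ≤ KerE S e' := by
    intro v hv
    obtain ⟨hv1, hv2⟩ := mem_KerE.mp hv
    refine mem_KerE.mpr ⟨hv1, fun p hp => ?_⟩
    rw [hMv, hv2 p hp, hhv, Finset.sum_eq_zero fun q hq => hv2 q hq, mul_zero, add_zero]
  have hker : ∀ v, v ∈ KerE S e ↔ v ∈ KerE S e' ∧ ∑ p ∈ S, h p * v p = 0 := by
    intro v
    constructor
    · intro hv
      refine ⟨hle hv, ?_⟩
      rw [hhv, Finset.sum_eq_zero fun q hq => (mem_KerE.mp hv).2 q hq]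
    · rintro ⟨hv, h0⟩
      obtain ⟨hv1, hv2⟩ := mem_KerE.mp hv
      refine mem_KerE.mpr ⟨hv1, fun p hp => ?_⟩
      have := hv2 p hp
      rw [hMv, h0, mul_zero, add_zero] at this
      exact this
  show ((finrank (ZMod 2) (KerE S e) : ℕ) : ZMod 2) = (S.card : ZMod 2) + ε
  rcases (by decide : ∀ x : ZMod 2, x = 0 ∨ x = 1) ε with h0 | h0
  · have heq : KerE S e = KerE S e' := by
      apply le_antisymm hle
      intro v hv
      rw [hker]
      refine ⟨hv, ?_⟩
      have h1 : ∑ p ∈ S, h p * v p = ∑ q ∈ S, ∑ p ∈ S, e' q p * v p := by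
        rw [Finset.sum_comm]
        refine Finset.sum_congr rfl fun p hp => ?_
        rw [← Finset.sum_mul]
        congr 1
        have := hrow' p hp
        rw [h0, mul_zero, add_zero] at this
        rw [← this]
        refine Finset.sum_congr rfl fun q hq => ?_
        rw [he']
        simp only []
        rw [hsym p hp q hq, mul_comm (h p)]
      rw [h1, Finset.sum_eq_zero fun q hq => (mem_KerE.mp hv).2 q hq]
    rw [heq, hpar, h0, add_zero]
  · -- the functional
    have hfin : Finite (KerE S e') := finite_KerE S e'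
    have hMF : Module.Finite (ZMod 2) (KerE S e') := Module.Finite.of_finite
    let φ : KerE S e' →ₗ[ZMod 2] ZMod 2 :=
      { toFun := fun v => ∑ p ∈ S, h p * v.1 p
        map_add' := fun v v' => by
          show ∑ p ∈ S, h p * (v.1 p + v'.1 p) = _
          simp_rw [mul_add]
          rw [Finset.sum_add_distrib]
        map_smul' := fun c v => by
          show ∑ p ∈ S, h p * (c * v.1 p) = c * ∑ p ∈ S, h p * v.1 p
          rw [Finset.mul_sum]
          refine Finset.sum_congr rfl fun p _ => ?_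
          ring }
    let one : ℕ → ZMod 2 := fun p => if p ∈ S then 1 else 0
    have hone : ∀ g : ℕ → ZMod 2, ∑ q ∈ S, g q * one q = ∑ q ∈ S, g q := fun g =>
      Finset.sum_congr rfl fun q hq => by
        show g q * (if q ∈ S then 1 else 0) = g q
        rw [if_pos hq, mul_one]
    have h1mem : one ∈ KerE S e' := by
      refine mem_KerE.mpr ⟨fun p hp => if_neg hp, fun p hp => ?_⟩
      rw [hone, hrow' p hp, h0, mul_one]
      exact CharTwo.add_self_eq_zero _
    have hφ1 : φ ⟨one, h1mem⟩ = 1 := by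
      show ∑ p ∈ S, h p * one p = 1
      rw [hone, ← h0]
    have hrange : LinearMap.range φ = ⊤ := by
      rw [LinearMap.range_eq_top]
      intro c
      refine ⟨c • ⟨one, h1mem⟩, ?_⟩
      rw [map_smul, hφ1, smul_eq_mul, mul_one]
    have hkerφ : LinearMap.ker φ = (KerE S e).comap (KerE S e').subtype := by
      ext v
      rw [LinearMap.mem_ker, Submodule.mem_comap]
      show (∑ p ∈ S, h p * v.1 p = 0) ↔ v.1 ∈ KerE S e
      rw [hker]
      exact ⟨fun h => ⟨v.2, h⟩, fun h => h.2⟩
    have hdim := LinearMap.finrank_range_add_finrank_ker φ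
    rw [hrange, finrank_top, finrank_self, hkerφ,
      (Submodule.comapSubtypeEquivOfLe hle).finrank_eq] at hdim
    rw [← hpar, ← hdim, h0]
    push_cast
    have : (1 : ZMod 2) + 1 = 0 := rfl
    rw [add_comm (1 : ZMod 2), add_assoc, this, add_zero]

end Pool.Agent.L0h71.RZ
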